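import Mathlib
import Pool.Agent.Y868.TG.B1
import Pool.Agent.K3h95.MX.B2

/-! The mean square of additive convolutions over all residue classes to all moduli. -/

set_option autoImplicit false

namespace Pool.Agent.K3h95.MS
open Finset
open Pool.Agent.H807R2.Dav
open Pool.Agent.H373R2.T7
open Pool.Agent.Y868.TG
open Pool.Agent.R311.DEH (cv cv_fourier cv_eq)

lemma ee_bridge (x : ℝ) : Pool.Agent.Helper112.ee x = ee x := by
  unfold Pool.Agent.Helper112.ee ee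
  congr 1
  ring

/-- the additive character -/
noncomputable def Et (M t n : ℕ) : ℂ := ee ((t : ℝ) * ((((1 : ℤ) * n : ℤ) : ℝ) / M))

lemma norm_Et (M t n : ℕ) : ‖Et M t n‖ = 1 := norm_ee _

/-- one class -/
lemma class_one (X : ℕ) (a b : ℕ → ℂ) :
    ((2 * X + 1 : ℕ) : ℝ) * ∑ N ∈ Icc 1 X, ‖∑ n ∈ Ico 1 N, b n * a (N - n)‖ ^ 2 ≤
      ∑ t ∈ range (2 * X + 1), ‖∑ m ∈ Icc 1 X, a m * Et (2 * X + 1) t m‖ ^ 2 *
        ‖∑ n ∈ Icc 1 X, b n * Et (2 * X + 1) t n‖ ^ 2 := by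
  have hM1 : 1 ≤ 2 * X + 1 := by omega
  have hM0 : (0 : ℝ) < ((2 * X + 1 : ℕ) : ℝ) := by positivity
  have h1 := parseval_Icc (2 * X) (2 * X + 1) hM1 (by omega) (cv X a b) 1 (Or.inl rfl)
  have h2 : ∑ N ∈ Icc 1 X, ‖∑ n ∈ Ico 1 N, b n * a (N - n)‖ ^ 2 ≤
      ∑ N ∈ Icc 1 (2 * X), ‖cv X a b N‖ ^ 2 := by
    refine le_trans (le_of_eq ?_) (sum_le_sum_of_subset_of_nonneg
      (Icc_subset_Icc le_rfl (show X ≤ 2 * X by omega)) (fun _ _ _ => by positivity))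
    apply sum_congr rfl
    intro N hN
    rw [mem_Icc] at hN
    rw [cv_eq X a b hN.2]
  refine (mul_le_mul_of_nonneg_left h2 hM0.le).trans (le_of_eq ?_)
  rw [← h1]
  apply sum_congr rfl
  intro t _
  rw [cv_fourier, norm_mul, mul_pow]
  rfl

/-- all classes to one modulus -/
lemma class_mean (X q : ℕ) (a b : ℕ → ℂ) :
    ((2 * X + 1 : ℕ) : ℝ) * ∑ r ∈ range q, ∑ N ∈ Icc 1 X,
      ‖∑ n ∈ Ico 1 N, (if n % q = r then b n else 0) * a (N - n)‖ ^ 2 ≤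
      ∑ t ∈ range (2 * X + 1), ‖∑ m ∈ Icc 1 X, a m * Et (2 * X + 1) t m‖ ^ 2 *
        ∑ r ∈ range q, ‖∑ n ∈ (Icc 1 X).filter (fun n => n % q = r), b n * Et (2 * X + 1) t n‖ ^ 2 := by
  rw [mul_sum]
  refine (sum_le_sum fun r _ => class_one X a (fun n => if n % q = r then b n else 0)).trans
    (le_of_eq ?_)
  rw [sum_comm]
  apply sum_congr rfl
  intro t _
  rw [mul_sum]
  apply sum_congr rfl
  intro r _
  congr 3
  rw [sum_filter]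
  apply sum_congr rfl
  intro n _
  split_ifs <;> simp

/-- all moduli, in terms of the fractions in lowest terms -/
lemma moduli (X Q : ℕ) (α : ℕ → ℂ) :
    ∑ q ∈ Icc 1 Q, ∑ r ∈ range q, ‖∑ n ∈ (Icc 1 X).filter (fun n => n % q = r), α n‖ ^ 2 ≤
      (1 + Real.log Q) * ∑ f ∈ Icc 1 Q, (1 / (f : ℝ)) * Tf X α f := by
  classical
  have h1 : ∀ q ∈ Icc 1 Q, ∑ r ∈ range q, ‖∑ n ∈ (Icc 1 X).filter (fun n => n % q = r), α n‖ ^ 2 =
      ∑ f ∈ Icc 1 Q, (if f ∣ q then (1 / (q : ℝ)) * Tf X α f else 0) := by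
    intro q hq
    rw [mem_Icc] at hq
    have hq0 : (q : ℝ) ≠ 0 := by exact_mod_cast (by omega : q ≠ 0)
    have h2 := parseval_classes q X hq.1 α
    rw [fractions q X hq.1 α] at h2
    have h3 : ∑ r ∈ range q, ‖∑ n ∈ (Icc 1 X).filter (fun n => n % q = r), α n‖ ^ 2 =
        (1 / (q : ℝ)) * ∑ f ∈ q.divisors, Tf X α f := by
      rw [← h2]
      field_simp
    rw [h3, mul_sum, ← sum_filter]
    apply sum_congr _ (fun _ _ => rfl)
    ext f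
    rw [Nat.mem_divisors, mem_filter, mem_Icc]
    constructor
    · rintro ⟨h4, h5⟩
      have h6 := Nat.le_of_dvd (by omega) h4
      have h7 := Nat.pos_of_dvd_of_pos h4 (by omega : 0 < q)
      exact ⟨⟨h7, h6.trans hq.2⟩, h4⟩
    · rintro ⟨_, h4⟩
      exact ⟨h4, by omega⟩
  rw [sum_congr rfl h1, sum_comm, mul_sum]
  apply sum_le_sum
  intro f hf
  rw [mem_Icc] at hf
  rw [← sum_filter, ← sum_mul]
  have h3 := mul_le_mul_of_nonneg_right (inv_sum Q f hf.1) (Tf_nonneg X α f)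
  refine h3.trans (le_of_eq ?_)
  ring

/-- small and large denominators -/
lemma split_den (X R0 Q : ℕ) (hR : 1 ≤ R0) (α : ℕ → ℂ) :
    ∑ f ∈ Icc 1 Q, (1 / (f : ℝ)) * Tf X α f ≤ ∑ f ∈ Icc 1 R0, (1 / (f : ℝ)) * Tf X α f +
      24 * (∑ n ∈ Icc 1 X, ‖α n‖ ^ 2) * (X / R0 + 2 * Q) := by
  have h3 : Icc 1 Q ⊆ Icc 1 R0 ∪ Ioc R0 Q := by
    intro f hf
    rw [mem_Icc] at hf
    rw [mem_union, mem_Icc, mem_Ioc]
    omega
  have hnn : ∀ f : ℕ, 0 ≤ (1 / (f : ℝ)) * Tf X α f := fun f => mul_nonneg (by positivity) (Tf_nonneg X α f)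
  calc ∑ f ∈ Icc 1 Q, (1 / (f : ℝ)) * Tf X α f ≤ ∑ f ∈ Icc 1 R0 ∪ Ioc R0 Q, (1 / (f : ℝ)) * Tf X α f :=
        sum_le_sum_of_subset_of_nonneg h3 (fun f _ _ => hnn f)
    _ ≤ ∑ f ∈ Icc 1 R0, (1 / (f : ℝ)) * Tf X α f + ∑ f ∈ Ioc R0 Q, (1 / (f : ℝ)) * Tf X α f := by
        rw [← sum_union_inter]
        have : 0 ≤ ∑ f ∈ Icc 1 R0 ∩ Ioc R0 Q, (1 / (f : ℝ)) * Tf X α f := sum_nonneg fun f _ => hnn f
        linarith
    _ ≤ _ := by
        have := large_part X R0 Q hR α _ le_rfl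
        linarith

lemma sum_A (X : ℕ) (a : ℕ → ℂ) :
    ∑ t ∈ range (2 * X + 1), ‖∑ m ∈ Icc 1 X, a m * Et (2 * X + 1) t m‖ ^ 2 =
      ((2 * X + 1 : ℕ) : ℝ) * ∑ m ∈ Icc 1 X, ‖a m‖ ^ 2 :=
  parseval_Icc X (2 * X + 1) (by omega) (by omega) a 1 (Or.inl rfl)

lemma small_den (X f : ℕ) (hf : 1 ≤ f) (a b : ℕ → ℂ) (δ : ℝ)
    (h : ∀ α : ℝ, ‖∑ m ∈ Icc 1 X, a m * ee ((m : ℝ) * α)‖ ≤ δ) :
    ∑ t ∈ range (2 * X + 1), ‖∑ m ∈ Icc 1 X, a m * Et (2 * X + 1) t m‖ ^ 2 *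
      Tf X (fun n => b n * Et (2 * X + 1) t n) f ≤
      f * (δ ^ 2 * (((2 * X + 1 : ℕ) : ℝ) * ∑ n ∈ Icc 1 X, ‖b n‖ ^ 2)) := by
  have hA : ∀ t : ℕ, ‖∑ m ∈ Icc 1 X, a m * Et (2 * X + 1) t m‖ ^ 2 ≤ δ ^ 2 := by
    intro t
    apply pow_le_pow_left₀ (norm_nonneg _)
    refine le_trans (le_of_eq ?_) (h ((t : ℝ) / (2 * X + 1 : ℕ)))
    congr 1
    apply sum_congr rfl
    intro m _
    unfold Et
    congr 2
    push_cast
    ring
  have hS0 : 0 ≤ ((2 * X + 1 : ℕ) : ℝ) * ∑ n ∈ Icc 1 X, ‖b n‖ ^ 2 :=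
    mul_nonneg (by positivity) (sum_nonneg fun _ _ => by positivity)
  have h1 : ∑ t ∈ range (2 * X + 1), ‖∑ m ∈ Icc 1 X, a m * Et (2 * X + 1) t m‖ ^ 2 *
      Tf X (fun n => b n * Et (2 * X + 1) t n) f ≤
      ∑ t ∈ range (2 * X + 1), δ ^ 2 * Tf X (fun n => b n * Et (2 * X + 1) t n) f :=
    sum_le_sum fun t _ => mul_le_mul_of_nonneg_right (hA t) (Tf_nonneg _ _ _)
  refine h1.trans ?_
  rw [← mul_sum]
  have h2 : ∑ t ∈ range (2 * X + 1), Tf X (fun n => b n * Et (2 * X + 1) t n) f ≤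
      f * (((2 * X + 1 : ℕ) : ℝ) * ∑ n ∈ Icc 1 X, ‖b n‖ ^ 2) := by
    unfold Tf
    rw [sum_comm]
    have h3 : ∀ c ∈ (range f).filter (fun c => c.Coprime f),
        ∑ t ∈ range (2 * X + 1), ‖∑ n ∈ Icc 1 X, b n * Et (2 * X + 1) t n *
          Pool.Agent.Helper112.ee (n * c / f)‖ ^ 2 = ((2 * X + 1 : ℕ) : ℝ) * ∑ n ∈ Icc 1 X, ‖b n‖ ^ 2 := by
      intro c _
      have h4 := sum_A X (fun n => b n * Pool.Agent.Helper112.ee (n * c / f))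
      have h5 : ∑ n ∈ Icc 1 X, ‖b n * Pool.Agent.Helper112.ee (n * c / f)‖ ^ 2 = ∑ n ∈ Icc 1 X, ‖b n‖ ^ 2 := by
        apply sum_congr rfl
        intro n _
        rw [norm_mul, ee_bridge, norm_ee, mul_one]
      rw [h5] at h4
      rw [← h4]
      apply sum_congr rfl
      intro t _
      congr 2
      apply sum_congr rfl
      intro n _
      ring
    rw [sum_congr rfl h3, sum_const, nsmul_eq_mul]
    apply mul_le_mul_of_nonneg_right _ hS0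
    have := card_filter_le (range f) (fun c => c.Coprime f)
    rw [card_range] at this
    exact_mod_cast this
  calc δ ^ 2 * ∑ t ∈ range (2 * X + 1), Tf X (fun n => b n * Et (2 * X + 1) t n) f ≤
      δ ^ 2 * (f * (((2 * X + 1 : ℕ) : ℝ) * ∑ n ∈ Icc 1 X, ‖b n‖ ^ 2)) :=
        mul_le_mul_of_nonneg_left h2 (by positivity)
    _ = _ := by ring

lemma swap_sums {ι κ : Type*} (s : Finset ι) (r : Finset κ) (A : ι → ℝ) (w : κ → ℝ) (T : ι → κ → ℝ) (C D : ℝ) :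
    ∑ t ∈ s, A t * (C * (∑ f ∈ r, w f * T t f + D)) =
      C * (∑ f ∈ r, w f * ∑ t ∈ s, A t * T t f + D * ∑ t ∈ s, A t) := by
  have h1 : ∀ t ∈ s, A t * (C * (∑ f ∈ r, w f * T t f + D)) =
      C * (∑ f ∈ r, w f * (A t * T t f)) + C * (D * A t) := by
    intro t _
    have : A t * ∑ f ∈ r, w f * T t f = ∑ f ∈ r, w f * (A t * T t f) := by
      rw [mul_sum]
      apply sum_congr rfl
      intro f _
      ring
    rw [← this]
    ring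
  rw [sum_congr rfl h1, sum_add_distrib, ← mul_sum, ← mul_sum, ← mul_sum, sum_comm, mul_add]
  congr 2
  apply sum_congr rfl
  intro f _
  rw [mul_sum]

/-- **All residue classes to all moduli**, for additive convolutions. -/
theorem all_classes (X R0 Q : ℕ) (hR : 1 ≤ R0) (a b : ℕ → ℂ) (δ : ℝ)
    (h : ∀ α : ℝ, ‖∑ m ∈ Icc 1 X, a m * ee ((m : ℝ) * α)‖ ≤ δ) :
    ∑ q ∈ Icc 1 Q, ∑ r ∈ range q, ∑ N ∈ Icc 1 X,
      ‖∑ n ∈ Ico 1 N, (if n % q = r then b n else 0) * a (N - n)‖ ^ 2 ≤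
      (1 + Real.log Q) * ((R0 * δ ^ 2 + 24 * (X / R0 + 2 * Q) * ∑ m ∈ Icc 1 X, ‖a m‖ ^ 2) *
        ∑ n ∈ Icc 1 X, ‖b n‖ ^ 2) := by
  have hM0 : (0 : ℝ) < ((2 * X + 1 : ℕ) : ℝ) := by positivity
  have hlog : 0 ≤ Real.log Q := Real.log_natCast_nonneg Q
  set M := ((2 * X + 1 : ℕ) : ℝ) with hM
  set Sb := ∑ n ∈ Icc 1 X, ‖b n‖ ^ 2 with hSb
  set Sa := ∑ m ∈ Icc 1 X, ‖a m‖ ^ 2 with hSa
  have hSb0 : 0 ≤ Sb := sum_nonneg fun _ _ => by positivity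
  have key : M * ∑ q ∈ Icc 1 Q, ∑ r ∈ range q, ∑ N ∈ Icc 1 X,
      ‖∑ n ∈ Ico 1 N, (if n % q = r then b n else 0) * a (N - n)‖ ^ 2 ≤
      M * ((1 + Real.log Q) * ((R0 * δ ^ 2 + 24 * (X / R0 + 2 * Q) * Sa) * Sb)) := by
    have h1 : M * ∑ q ∈ Icc 1 Q, ∑ r ∈ range q, ∑ N ∈ Icc 1 X,
        ‖∑ n ∈ Ico 1 N, (if n % q = r then b n else 0) * a (N - n)‖ ^ 2 ≤
        ∑ t ∈ range (2 * X + 1), ‖∑ m ∈ Icc 1 X, a m * Et (2 * X + 1) t m‖ ^ 2 *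
          ((1 + Real.log Q) * (∑ f ∈ Icc 1 R0, (1 / (f : ℝ)) *
            Tf X (fun n => b n * Et (2 * X + 1) t n) f + 24 * Sb * (X / R0 + 2 * Q))) := by
      rw [mul_sum]
      refine (sum_le_sum fun q _ => class_mean X q a b).trans ?_
      rw [sum_comm]
      apply sum_le_sum
      intro t _
      rw [← mul_sum]
      apply mul_le_mul_of_nonneg_left _ (by positivity)
      refine (moduli X Q _).trans ?_
      apply mul_le_mul_of_nonneg_left _ (by linarith)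
      refine (split_den X R0 Q hR _).trans (le_of_eq ?_)
      congr 3
      apply sum_congr rfl
      intro n _
      rw [norm_mul, norm_Et, mul_one]
    refine h1.trans ?_
    rw [swap_sums (range (2 * X + 1)) (Icc 1 R0)
      (fun t => ‖∑ m ∈ Icc 1 X, a m * Et (2 * X + 1) t m‖ ^ 2) (fun f => 1 / (f : ℝ))
      (fun t f => Tf X (fun n => b n * Et (2 * X + 1) t n) f) (1 + Real.log Q)
      (24 * Sb * (X / R0 + 2 * Q))]
    have h3 : ∑ f ∈ Icc 1 R0, 1 / (f : ℝ) * ∑ t ∈ range (2 * X + 1),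
        ‖∑ m ∈ Icc 1 X, a m * Et (2 * X + 1) t m‖ ^ 2 * Tf X (fun n => b n * Et (2 * X + 1) t n) f ≤
        R0 * (δ ^ 2 * (M * Sb)) := by
      have h4 : ∀ f ∈ Icc 1 R0, 1 / (f : ℝ) * ∑ t ∈ range (2 * X + 1),
          ‖∑ m ∈ Icc 1 X, a m * Et (2 * X + 1) t m‖ ^ 2 * Tf X (fun n => b n * Et (2 * X + 1) t n) f ≤
          δ ^ 2 * (M * Sb) := by
        intro f hf
        rw [mem_Icc] at hf
        have hf0 : (0 : ℝ) < f := by exact_mod_cast hf.1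
        have h5 := small_den X f hf.1 a b δ h
        calc 1 / (f : ℝ) * _ ≤ 1 / (f : ℝ) * (f * (δ ^ 2 * (M * Sb))) :=
              mul_le_mul_of_nonneg_left h5 (by positivity)
          _ = _ := by field_simp
      refine (sum_le_sum h4).trans (le_of_eq ?_)
      rw [sum_const, Nat.card_Icc, nsmul_eq_mul, Nat.add_sub_cancel]
    have h6 : ∑ t ∈ range (2 * X + 1), ‖∑ m ∈ Icc 1 X, a m * Et (2 * X + 1) t m‖ ^ 2 = M * Sa := sum_A X a
    rw [h6]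
    calc (1 + Real.log Q) * (_ + 24 * Sb * (X / R0 + 2 * Q) * (M * Sa)) ≤
        (1 + Real.log Q) * (R0 * (δ ^ 2 * (M * Sb)) + 24 * Sb * (X / R0 + 2 * Q) * (M * Sa)) := by
          apply mul_le_mul_of_nonneg_left _ (by linarith)
          linarith
      _ = _ := by ring
  exact le_of_mul_le_mul_left key hM0

end Pool.Agent.K3h95.MS
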