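import Mathlib
import Pool.Agent.K3h95.MS.C1

/-! The mean square over all residue classes, with maxima over the end of the summation. -/

set_option autoImplicit false

namespace Pool.Agent.K3h95.MS
open Finset
open Pool.Agent.H807R2.Dav
open Pool.Agent.K3h95.MX (Bl Ms max_le mx le_mx mx_nonneg exists_J)

/-- the sum in one class, as a function of the end -/
noncomputable def cl (a b : ℕ → ℝ) (q r N n : ℕ) : ℝ := (if n % q = r then b n else 0) * a (N - n)

/-- **All residue classes to all moduli**, with maxima over the end of the summation. -/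
theorem all_classes_max (X R0 Q J : ℕ) (hR : 1 ≤ R0) (hJ : X < 2 ^ J) (a b : ℕ → ℝ) (δ : ℝ)
    (h : ∀ α : ℝ, ‖∑ m ∈ Icc 1 X, (a m : ℂ) * ee ((m : ℝ) * α)‖ ≤ δ) :
    ∑ q ∈ Icc 1 Q, ∑ r ∈ range q, ∑ N ∈ Icc 1 X, mx (cl a b q r N) N ^ 2 ≤
      J ^ 2 * ((1 + Real.log Q) * ((R0 * δ ^ 2 + 24 * (X / R0 + 2 * Q) * ∑ m ∈ Icc 1 X, a m ^ 2) *
        ∑ n ∈ Icc 1 X, b n ^ 2)) := by
  set C := (1 + Real.log Q) * (R0 * δ ^ 2 + 24 * (X / R0 + 2 * Q) * ∑ m ∈ Icc 1 X, a m ^ 2) with hC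
  have hlog : 0 ≤ Real.log Q := Real.log_natCast_nonneg Q
  have hSa0 : 0 ≤ ∑ m ∈ Icc 1 X, a m ^ 2 := sum_nonneg fun _ _ => by positivity
  have hC0 : 0 ≤ C := by
    have : (0 : ℝ) < R0 := by exact_mod_cast hR
    positivity
  -- the bound for one point
  have h1 : ∀ q r N : ℕ, N ∈ Icc 1 X → mx (cl a b q r N) N ^ 2 ≤
      J * ∑ i ∈ range J, ∑ c ∈ range (X + 1), ‖Bl (fun n => ((cl a b q r N n : ℝ) : ℂ)) N i c‖ ^ 2 := by
    intro q r N hN
    rw [mem_Icc] at hN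
    have h2 : mx (cl a b q r N) N ≤ ∑ i ∈ range J, Ms (fun n => ((cl a b q r N n : ℝ) : ℂ)) N X i := by
      unfold mx
      apply sup'_le
      intro y hy
      rw [mem_range] at hy
      have h3 := max_le (fun n => ((cl a b q r N n : ℝ) : ℂ)) N X y (by omega) hN.2 J hJ
      refine le_trans (le_of_eq ?_) h3
      rw [← Real.norm_eq_abs, ← Complex.norm_real]
      push_cast
      rfl
    have h4 : mx (cl a b q r N) N ^ 2 ≤ (∑ i ∈ range J, Ms (fun n => ((cl a b q r N n : ℝ) : ℂ)) N X i) ^ 2 :=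
      pow_le_pow_left₀ (mx_nonneg _ _) h2 2
    refine h4.trans ?_
    have h5 := sq_sum_le_card_mul_sum_sq (s := range J)
      (f := fun i => Ms (fun n => ((cl a b q r N n : ℝ) : ℂ)) N X i)
    rw [card_range] at h5
    refine h5.trans (le_of_eq ?_)
    congr 1
    apply sum_congr rfl
    intro i _
    unfold Ms
    rw [Real.sq_sqrt (sum_nonneg fun _ _ => by positivity)]
  -- one block
  have h2 : ∀ i c : ℕ, ∑ q ∈ Icc 1 Q, ∑ r ∈ range q, ∑ N ∈ Icc 1 X,
      ‖Bl (fun n => ((cl a b q r N n : ℝ) : ℂ)) N i c‖ ^ 2 ≤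
      C * ∑ n ∈ (Icc 1 X).filter (fun n => n / 2 ^ i = c), b n ^ 2 := by
    intro i c
    have h3 := all_classes X R0 Q hR (fun m => (a m : ℂ)) (fun n => if n / 2 ^ i = c then (b n : ℂ) else 0) δ h
    refine le_trans (le_of_eq ?_) (h3.trans (le_of_eq ?_))
    · apply sum_congr rfl
      intro q _
      apply sum_congr rfl
      intro r _
      apply sum_congr rfl
      intro N _
      unfold Bl cl
      rw [sum_filter]
      congr 2
      apply sum_congr rfl
      intro n _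
      split_ifs <;> simp
    · have h4 : ∑ m ∈ Icc 1 X, ‖(a m : ℂ)‖ ^ 2 = ∑ m ∈ Icc 1 X, a m ^ 2 := by
        apply sum_congr rfl
        intro m _
        rw [Complex.norm_real, Real.norm_eq_abs, sq_abs]
      have h5 : ∑ n ∈ Icc 1 X, ‖(if n / 2 ^ i = c then (b n : ℂ) else 0)‖ ^ 2 =
          ∑ n ∈ (Icc 1 X).filter (fun n => n / 2 ^ i = c), b n ^ 2 := by
        rw [sum_filter]
        apply sum_congr rfl
        intro n _
        split_ifs
        · rw [Complex.norm_real, Real.norm_eq_abs, sq_abs]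
        · simp
      rw [h4, h5, hC]
      ring
  -- all blocks of one scale
  have h3 : ∀ i : ℕ, ∑ c ∈ range (X + 1), ∑ q ∈ Icc 1 Q, ∑ r ∈ range q, ∑ N ∈ Icc 1 X,
      ‖Bl (fun n => ((cl a b q r N n : ℝ) : ℂ)) N i c‖ ^ 2 ≤ C * ∑ n ∈ Icc 1 X, b n ^ 2 := by
    intro i
    refine (sum_le_sum fun c _ => h2 i c).trans (le_of_eq ?_)
    rw [← mul_sum]
    congr 1
    rw [sum_fiberwise_of_maps_to (s := Icc 1 X) (t := range (X + 1)) (g := fun n => n / 2 ^ i)]
    intro n hn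
    rw [mem_Icc] at hn
    rw [mem_range]
    have := Nat.div_le_self n (2 ^ i)
    omega
  calc ∑ q ∈ Icc 1 Q, ∑ r ∈ range q, ∑ N ∈ Icc 1 X, mx (cl a b q r N) N ^ 2 ≤
      ∑ q ∈ Icc 1 Q, ∑ r ∈ range q, ∑ N ∈ Icc 1 X, (J * ∑ i ∈ range J, ∑ c ∈ range (X + 1),
        ‖Bl (fun n => ((cl a b q r N n : ℝ) : ℂ)) N i c‖ ^ 2) :=
        sum_le_sum fun q _ => sum_le_sum fun r _ => sum_le_sum fun N hN => h1 q r N hN
    _ = J * ∑ i ∈ range J, ∑ c ∈ range (X + 1), ∑ q ∈ Icc 1 Q, ∑ r ∈ range q, ∑ N ∈ Icc 1 X,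
        ‖Bl (fun n => ((cl a b q r N n : ℝ) : ℂ)) N i c‖ ^ 2 := by
        have e1 : ∀ q ∈ Icc 1 Q, ∑ r ∈ range q, ∑ N ∈ Icc 1 X, ((J : ℝ) * ∑ i ∈ range J, ∑ c ∈ range (X + 1),
            ‖Bl (fun n => ((cl a b q r N n : ℝ) : ℂ)) N i c‖ ^ 2) =
            J * ∑ i ∈ range J, ∑ c ∈ range (X + 1), ∑ r ∈ range q, ∑ N ∈ Icc 1 X,
              ‖Bl (fun n => ((cl a b q r N n : ℝ) : ℂ)) N i c‖ ^ 2 := by
          intro q _
          have e2 : ∀ r ∈ range q, ∑ N ∈ Icc 1 X, ((J : ℝ) * ∑ i ∈ range J, ∑ c ∈ range (X + 1),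
              ‖Bl (fun n => ((cl a b q r N n : ℝ) : ℂ)) N i c‖ ^ 2) =
              J * ∑ i ∈ range J, ∑ c ∈ range (X + 1), ∑ N ∈ Icc 1 X,
                ‖Bl (fun n => ((cl a b q r N n : ℝ) : ℂ)) N i c‖ ^ 2 := by
            intro r _
            rw [← mul_sum, sum_comm]
            congr 1
            apply sum_congr rfl
            intro i _
            rw [sum_comm]
          rw [sum_congr rfl e2, ← mul_sum, sum_comm]
          congr 1
          apply sum_congr rfl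
          intro i _
          rw [sum_comm]
        rw [sum_congr rfl e1, ← mul_sum, sum_comm]
        congr 1
        apply sum_congr rfl
        intro i _
        rw [sum_comm]
    _ ≤ J * ∑ _i ∈ range J, C * ∑ n ∈ Icc 1 X, b n ^ 2 := by
        apply mul_le_mul_of_nonneg_left _ (Nat.cast_nonneg _)
        exact sum_le_sum fun i _ => h3 i
    _ = _ := by
        rw [sum_const, card_range, nsmul_eq_mul, hC]
        ring

end Pool.Agent.K3h95.MS
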