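import Mathlib
import Pool.Agent.K3h95.MS.C2

/-! The mean square over all residue classes: the choice of the parameters. -/

set_option autoImplicit false

namespace Pool.Agent.K3h95.MS
open Finset Filter
open Pool.Agent.H807R2.Dav
open Pool.Agent.R311.DEH (g1 g2 g_bound dl dl_nonneg Qs sum_dl U_ex T_ex K_large K_le KK' tlog low_N)
open Pool.Agent.K3h95.MX (mx le_mx mx_nonneg exists_J)

/-- Davenport's bound -/
lemma sup_exp (E : ℕ) : ∃ X0 : ℕ, ∀ X : ℕ, X0 ≤ X → ∀ g : ℕ → ℝ, (g = g1 ∨ g = g2) → ∀ α : ℝ,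
    ‖∑ m ∈ Icc 1 X, (g m : ℂ) * ee ((m : ℝ) * α)‖ ≤ 16 * X / (1 + Real.log X) ^ E := by
  obtain ⟨U, X1, hU⟩ := U_ex 1 one_pos (E + 3)
  obtain ⟨Y0, hY0, hg⟩ := g_bound U
  obtain ⟨X2, hK1⟩ := K_large 1 one_pos Y0
  obtain ⟨X3, hK2⟩ := K_le 1 one_pos le_rfl
  obtain ⟨X4, hT⟩ := T_ex 1 one_pos (E + 3)
  obtain ⟨X6, hlog⟩ := eventually_atTop.1 (tlog.eventually_ge_atTop 4)
  refine ⟨X1 + X2 + X3 + X4 + X6 + 4, fun X hX g hgg α => ?_⟩
  have a1 := hU X (by omega)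
  have a2 := hK1 X (by omega)
  have a3 := hK2 X (by omega)
  obtain ⟨T, hT1, hTct, hTge⟩ := hT X (by omega)
  have a6 := hlog X (by omega)
  have hX4 : 4 ≤ X := by omega
  have hK4 : 4 ≤ KK' 1 X := hY0.trans a2
  have hXp : (0 : ℝ) < X := by exact_mod_cast (by omega : 0 < X)
  have hℓ0 : 0 < 1 + Real.log X := by linarith
  have b1 := hg X 1 (KK' 1 X) le_rfl a2 (by rw [Nat.div_one]; exact a3) g hgg α
  have b2 : ∑ m ∈ Icc 1 X, (g m : ℂ) * ee ((m : ℝ) * α) =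
      ∑ m ∈ Icc 1 X, (if 1 ∣ m then (g m : ℂ) else 0) * ee ((m : ℝ) * α) := by
    apply sum_congr rfl
    intro m _
    rw [if_pos (one_dvd m)]
  rw [b2]
  refine b1.trans ?_
  have h1mem : 1 ∈ Qs X (KK' 1 X) := by
    rw [Qs, mem_filter, mem_Icc, Nat.div_one]
    exact ⟨⟨le_rfl, by omega⟩, a3⟩
  have b3 : dl U X 1 (KK' 1 X) ≤ ∑ q ∈ Qs X (KK' 1 X), dl U X q (KK' 1 X) :=
    single_le_sum (f := fun q => dl U X q (KK' 1 X))
      (fun q _ => dl_nonneg U X q _ (by omega) (by omega)) h1mem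
  have b4 := sum_dl U X (KK' 1 X) T hX4 hK4 hT1 hTct
  refine b3.trans (b4.trans ?_)
  have b5 : 2 ^ U / Real.log (KK' 1 X) ^ U + 1 / (T : ℝ) ≤ 2 / (1 + Real.log X) ^ (E + 3) := by
    have h1 : 1 / (T : ℝ) ≤ 1 / (1 + Real.log X) ^ (E + 3) :=
      one_div_le_one_div_of_le (by positivity) hTge
    calc _ ≤ 1 / (1 + Real.log X) ^ (E + 3) + 1 / (1 + Real.log X) ^ (E + 3) :=
          add_le_add a1 h1
      _ = _ := by ring
  calc 8 * (1 + Real.log X) ^ 3 * X * (2 ^ U / Real.log (KK' 1 X) ^ U + 1 / T) ≤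
      8 * (1 + Real.log X) ^ 3 * X * (2 / (1 + Real.log X) ^ (E + 3)) :=
        mul_le_mul_of_nonneg_left b5 (by positivity)
    _ = _ := by
        rw [pow_add]
        field_simp
        ring

/-- the sum of `β(n) Λ(n) g(N - n)` over `1 ≤ n < y`, `n % q = r` -/
noncomputable def P (β g : ℕ → ℝ) (q r N y : ℕ) : ℝ :=
  ∑ n ∈ (Ico 1 y).filter (fun n => n % q = r), β n * ArithmeticFunction.vonMangoldt n * g (N - n)

/-- the maximum of its absolute value over `y ≤ N` -/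
noncomputable def mP (β g : ℕ → ℝ) (q r N : ℕ) : ℝ :=
  (range (N + 1)).sup' ⟨0, by simp⟩ (fun y => |P β g q r N y|)

lemma mP_eq (β g : ℕ → ℝ) (q r N : ℕ) :
    mP β g q r N = mx (cl g (fun n => β n * ArithmeticFunction.vonMangoldt n) q r N) N := by
  unfold mP mx
  congr 1
  funext y
  congr 1
  unfold P cl
  rw [sum_filter]
  apply sum_congr rfl
  intro n _
  split_ifs <;> ring

lemma mP_nonneg (β g : ℕ → ℝ) (q r N : ℕ) : 0 ≤ mP β g q r N := by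
  rw [mP_eq]
  exact mx_nonneg _ _

lemma P_le (β g : ℕ → ℝ) (q r : ℕ) {N y : ℕ} (hy : y ≤ N) : |P β g q r N y| ≤ mP β g q r N :=
  le_sup' (f := fun y => |P β g q r N y|) (by rw [mem_range]; omega)

/-- the mean square over all classes -/
noncomputable def V (β g : ℕ → ℝ) (N Q : ℕ) : ℝ :=
  ∑ q ∈ Icc 1 Q, ∑ r ∈ range q, mP β g q r N ^ 2

lemma V_nonneg (β g : ℕ → ℝ) (N Q : ℕ) : 0 ≤ V β g N Q :=
  sum_nonneg fun _ _ => sum_nonneg fun _ _ => by positivity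

lemma V_mono (β g : ℕ → ℝ) (N : ℕ) {Q Q' : ℕ} (h : Q ≤ Q') : V β g N Q ≤ V β g N Q' :=
  sum_le_sum_of_subset_of_nonneg (Icc_subset_Icc le_rfl h) fun _ _ _ => sum_nonneg fun _ _ => by positivity

/-- the mean of `V` over `N` -/
theorem mean_V (X R0 Q : ℕ) (hX : 4 ≤ X) (hR : 1 ≤ R0) (hQ1 : 1 ≤ Q) (hQ : Q ≤ X) (β g : ℕ → ℝ)
    (hβ : ∀ n, |β n| ≤ 1) (hg : g = g1 ∨ g = g2) (δ : ℝ)
    (h : ∀ α : ℝ, ‖∑ m ∈ Icc 1 X, (g m : ℂ) * ee ((m : ℝ) * α)‖ ≤ δ) :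
    ∑ N ∈ Icc 1 X, V β g N Q ≤ 4 * (1 + Real.log X) ^ 5 * X *
      (R0 * δ ^ 2 + 24 * (X / R0 + 2 * Q) * (X * (1 + Real.log X) ^ 2)) := by
  obtain ⟨J, hJ1, hJ2⟩ := exists_J X (by omega)
  have hXp : (0 : ℝ) < X := by exact_mod_cast (by omega : 0 < X)
  have hR0 : (0 : ℝ) < R0 := by exact_mod_cast hR
  have hlX : 0 ≤ Real.log X := Real.log_natCast_nonneg X
  set ℓ := 1 + Real.log X with hℓ
  have hℓ1 : 1 ≤ ℓ := by linarith
  have hlQ : 0 ≤ Real.log Q := Real.log_natCast_nonneg Q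
  have hlQ2 : 1 + Real.log Q ≤ ℓ := by
    have := Real.log_le_log (show (0 : ℝ) < Q by exact_mod_cast hQ1) (show (Q : ℝ) ≤ X by exact_mod_cast hQ)
    linarith
  have h1 := all_classes_max X R0 Q J hR hJ1 g (fun n => β n * ArithmeticFunction.vonMangoldt n) δ h
  have h2 : ∑ N ∈ Icc 1 X, V β g N Q = ∑ q ∈ Icc 1 Q, ∑ r ∈ range q, ∑ N ∈ Icc 1 X,
      mx (cl g (fun n => β n * ArithmeticFunction.vonMangoldt n) q r N) N ^ 2 := by
    unfold V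
    rw [sum_comm]
    apply sum_congr rfl
    intro q _
    rw [sum_comm]
    apply sum_congr rfl
    intro r _
    apply sum_congr rfl
    intro N _
    rw [mP_eq]
  rw [h2]
  refine h1.trans ?_
  have hlogn : ∀ n ∈ Icc 1 X, 0 ≤ Real.log n ∧ Real.log n ≤ ℓ := by
    intro n hn
    rw [mem_Icc] at hn
    have hn0 : (0 : ℝ) < n := by exact_mod_cast hn.1
    have := Real.log_le_log hn0 (show (n : ℝ) ≤ X by exact_mod_cast hn.2)
    exact ⟨Real.log_natCast_nonneg n, by linarith⟩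
  have ha : ∑ m ∈ Icc 1 X, g m ^ 2 ≤ X * ℓ ^ 2 := by
    calc ∑ m ∈ Icc 1 X, g m ^ 2 ≤ ∑ _m ∈ Icc 1 X, ℓ ^ 2 := by
          apply sum_le_sum
          intro m hm
          have h3 := hlogn m hm
          have h4 : |((ArithmeticFunction.moebius m : ℤ) : ℝ)| ≤ 1 := by
            exact_mod_cast ArithmeticFunction.abs_moebius_le_one
          rw [← sq_abs (g m)]
          apply pow_le_pow_left₀ (abs_nonneg _)
          rcases hg with rfl | rfl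
          · unfold g1
            linarith
          · unfold g2
            rw [abs_mul, abs_of_nonneg h3.1]
            nlinarith [abs_nonneg ((ArithmeticFunction.moebius m : ℤ) : ℝ)]
      _ = X * ℓ ^ 2 := by rw [sum_const, Nat.card_Icc, nsmul_eq_mul, Nat.add_sub_cancel]
  have hb : ∑ n ∈ Icc 1 X, (β n * ArithmeticFunction.vonMangoldt n) ^ 2 ≤ X * ℓ ^ 2 := by
    calc ∑ n ∈ Icc 1 X, (β n * ArithmeticFunction.vonMangoldt n) ^ 2 ≤ ∑ _m ∈ Icc 1 X, ℓ ^ 2 := by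
          apply sum_le_sum
          intro m hm
          have h3 := hlogn m hm
          have h5 : ArithmeticFunction.vonMangoldt m ≤ Real.log m := ArithmeticFunction.vonMangoldt_le_log
          have h6 := ArithmeticFunction.vonMangoldt_nonneg (n := m)
          have h4 := hβ m
          rw [← sq_abs (β m * _)]
          apply pow_le_pow_left₀ (abs_nonneg _)
          rw [abs_mul, abs_of_nonneg h6]
          nlinarith [abs_nonneg (β m)]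
      _ = X * ℓ ^ 2 := by rw [sum_const, Nat.card_Icc, nsmul_eq_mul, Nat.add_sub_cancel]
  have hb0 : 0 ≤ ∑ n ∈ Icc 1 X, (β n * ArithmeticFunction.vonMangoldt n) ^ 2 :=
    sum_nonneg fun _ _ => by positivity
  have ha0 : 0 ≤ ∑ m ∈ Icc 1 X, g m ^ 2 := sum_nonneg fun _ _ => by positivity
  have hJ0 : (0 : ℝ) ≤ J := Nat.cast_nonneg _
  calc (J : ℝ) ^ 2 * ((1 + Real.log Q) * ((R0 * δ ^ 2 + 24 * (X / R0 + 2 * Q) * ∑ m ∈ Icc 1 X, g m ^ 2) *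
        ∑ n ∈ Icc 1 X, (β n * ArithmeticFunction.vonMangoldt n) ^ 2)) ≤
      (2 * ℓ) ^ 2 * (ℓ * ((R0 * δ ^ 2 + 24 * (X / R0 + 2 * Q) * (X * ℓ ^ 2)) * (X * ℓ ^ 2))) := by
        have c1 : (J : ℝ) ^ 2 ≤ (2 * ℓ) ^ 2 := pow_le_pow_left₀ hJ0 hJ2 2
        have c2 : R0 * δ ^ 2 + 24 * (X / R0 + 2 * Q) * ∑ m ∈ Icc 1 X, g m ^ 2 ≤
            R0 * δ ^ 2 + 24 * (X / R0 + 2 * Q) * (X * ℓ ^ 2) := by
          have := mul_le_mul_of_nonneg_left ha (show (0 : ℝ) ≤ 24 * (X / R0 + 2 * Q) by positivity)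
          linarith
        have c0 : 0 ≤ R0 * δ ^ 2 + 24 * (X / R0 + 2 * Q) * ∑ m ∈ Icc 1 X, g m ^ 2 := by positivity
        have c3 : (R0 * δ ^ 2 + 24 * (X / R0 + 2 * Q) * ∑ m ∈ Icc 1 X, g m ^ 2) *
            ∑ n ∈ Icc 1 X, (β n * ArithmeticFunction.vonMangoldt n) ^ 2 ≤
            (R0 * δ ^ 2 + 24 * (X / R0 + 2 * Q) * (X * ℓ ^ 2)) * (X * ℓ ^ 2) :=
          mul_le_mul c2 hb hb0 (c0.trans c2)
        have c4 : (1 + Real.log Q) * ((R0 * δ ^ 2 + 24 * (X / R0 + 2 * Q) * ∑ m ∈ Icc 1 X, g m ^ 2) *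
            ∑ n ∈ Icc 1 X, (β n * ArithmeticFunction.vonMangoldt n) ^ 2) ≤
            ℓ * ((R0 * δ ^ 2 + 24 * (X / R0 + 2 * Q) * (X * ℓ ^ 2)) * (X * ℓ ^ 2)) :=
          mul_le_mul hlQ2 c3 (mul_nonneg c0 hb0) (by linarith)
        exact mul_le_mul c1 c4 (mul_nonneg (by linarith) (mul_nonneg c0 hb0)) (by positivity)
    _ = _ := by ring

/-- the mean with the parameters -/
theorem mean_V2 (E : ℕ) : ∃ X0 : ℕ, ∀ X : ℕ, X0 ≤ X → ∀ β g : ℕ → ℝ, (∀ n, |β n| ≤ 1) →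
    (g = g1 ∨ g = g2) → ∑ N ∈ Icc 1 X, V β g N ⌊(X : ℝ) / (1 + Real.log X) ^ E⌋₊ ≤
      X ^ 3 * (320 / (1 + Real.log X) ^ E * (1 + Real.log X) ^ 7) := by
  obtain ⟨X1, h1⟩ := sup_exp (E + 10)
  obtain ⟨X2, h2⟩ := low_N E
  obtain ⟨X6, hlog⟩ := eventually_atTop.1 (tlog.eventually_ge_atTop 4)
  refine ⟨X1 + X2 + X6 + 4, fun X hX β g hβ hg => ?_⟩
  have a1 := h1 X (by omega) g hg
  have a2 := h2 X (by omega)
  have a6 := hlog X (by omega)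
  have hXp : (0 : ℝ) < X := by exact_mod_cast (by omega : 0 < X)
  set ℓ := 1 + Real.log X with hℓ
  have hℓ5 : 5 ≤ ℓ := by linarith
  have hℓ0 : 0 < ℓ := by linarith
  have hE1 : 1 ≤ ℓ ^ E := one_le_pow₀ (by linarith)
  set Q := ⌊(X : ℝ) / ℓ ^ E⌋₊ with hQ
  have hQle : (Q : ℝ) ≤ X / ℓ ^ E := Nat.floor_le (by positivity)
  have hQX : Q ≤ X := by
    have : (Q : ℝ) ≤ X := hQle.trans (div_le_self hXp.le hE1)
    exact_mod_cast this
  have hQ1 : 1 ≤ Q := by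
    apply Nat.le_floor
    push_cast
    refine le_trans ?_ a2
    have := Real.add_one_le_exp (Real.log X / 2)
    linarith
  set R0 := ⌈ℓ ^ E⌉₊ with hR0
  have hRge : ℓ ^ E ≤ R0 := Nat.le_ceil _
  have hRle : (R0 : ℝ) ≤ 2 * ℓ ^ E := by
    have := (Nat.ceil_lt_add_one (show 0 ≤ ℓ ^ E by positivity)).le
    linarith
  have hR1 : 1 ≤ R0 := by
    have : (1 : ℝ) ≤ R0 := hE1.trans hRge
    exact_mod_cast this
  have hRp : (0 : ℝ) < R0 := by exact_mod_cast hR1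
  have h3 := mean_V X R0 Q (by omega) hR1 hQ1 hQX β g hβ hg _ a1
  refine h3.trans ?_
  have h4 : (X : ℝ) / R0 ≤ X / ℓ ^ E := div_le_div_of_nonneg_left hXp.le (by positivity) hRge
  have h5 : (R0 : ℝ) * (16 * X / ℓ ^ (E + 10)) ^ 2 ≤ X ^ 2 * (512 / ℓ ^ E) * (1 / ℓ ^ 20) := by
    calc (R0 : ℝ) * (16 * X / ℓ ^ (E + 10)) ^ 2 ≤ (2 * ℓ ^ E) * (16 * X / ℓ ^ (E + 10)) ^ 2 :=
          mul_le_mul_of_nonneg_right hRle (by positivity)
      _ = _ := by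
          rw [pow_add]
          field_simp
          ring
  have h6 : 1 / ℓ ^ 20 ≤ 1 / 64 := by
    apply one_div_le_one_div_of_le (by norm_num)
    calc (64 : ℝ) ≤ 5 ^ 20 := by norm_num
      _ ≤ ℓ ^ 20 := pow_le_pow_left₀ (by norm_num) hℓ5 20
  have h7 : (R0 : ℝ) * (16 * X / ℓ ^ (E + 10)) ^ 2 ≤ X ^ 2 * (8 / ℓ ^ E) := by
    refine h5.trans ?_
    calc X ^ 2 * (512 / ℓ ^ E) * (1 / ℓ ^ 20) ≤ X ^ 2 * (512 / ℓ ^ E) * (1 / 64) :=
          mul_le_mul_of_nonneg_left h6 (by positivity)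
      _ = _ := by ring
  have h8 : 24 * ((X : ℝ) / R0 + 2 * Q) * (X * ℓ ^ 2) ≤ X ^ 2 * (72 / ℓ ^ E) * ℓ ^ 2 := by
    calc 24 * ((X : ℝ) / R0 + 2 * Q) * (X * ℓ ^ 2) ≤ 24 * (X / ℓ ^ E + 2 * (X / ℓ ^ E)) * (X * ℓ ^ 2) := by
          gcongr
      _ = _ := by ring
  have h9 : X ^ 2 * (8 / ℓ ^ E) ≤ X ^ 2 * (8 / ℓ ^ E) * ℓ ^ 2 :=
    le_mul_of_one_le_right (by positivity) (one_le_pow₀ (by linarith))
  calc 4 * ℓ ^ 5 * X * (R0 * (16 * X / ℓ ^ (E + 10)) ^ 2 + 24 * (X / R0 + 2 * Q) * (X * ℓ ^ 2)) ≤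
      4 * ℓ ^ 5 * X * (X ^ 2 * (8 / ℓ ^ E) * ℓ ^ 2 + X ^ 2 * (72 / ℓ ^ E) * ℓ ^ 2) := by
        apply mul_le_mul_of_nonneg_left _ (by positivity)
        linarith
    _ = _ := by ring

end Pool.Agent.K3h95.MS
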