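import Mathlib
import Pool.Agent.K3h95.MS.C3

/-! The mean square over all residue classes: almost all `N`. -/

set_option autoImplicit false

namespace Pool.Agent.K3h95.MS
open Finset Filter
open Pool.Agent.R311.DEH (g1 g2 tlog low_N)

/-- the discrepancy in a reduced class -/
noncomputable def Dd (β g : ℕ → ℝ) (q r N y : ℕ) : ℝ :=
  P β g q r N y - 1 / (Nat.totient q : ℝ) * P β g 1 0 N y

/-- its maximum over `y ≤ N` -/
noncomputable def mD (β g : ℕ → ℝ) (q r N : ℕ) : ℝ :=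
  (range (N + 1)).sup' ⟨0, by simp⟩ (fun y => |Dd β g q r N y|)

/-- the variance over the reduced classes -/
noncomputable def W (β g : ℕ → ℝ) (N Q : ℕ) : ℝ :=
  ∑ q ∈ Icc 1 Q, ∑ r ∈ (range q).filter (fun r => r.Coprime q), mD β g q r N ^ 2

lemma mD_nonneg (β g : ℕ → ℝ) (q r N : ℕ) : 0 ≤ mD β g q r N := by
  unfold mD
  refine le_trans (abs_nonneg (Dd β g q r N 0)) ?_
  exact le_sup' (f := fun y => |Dd β g q r N y|) (by simp)

lemma mD_le (β g : ℕ → ℝ) (q r N : ℕ) :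
    mD β g q r N ≤ mP β g q r N + 1 / (Nat.totient q : ℝ) * mP β g 1 0 N := by
  unfold mD
  apply sup'_le
  intro y hy
  rw [mem_range] at hy
  unfold Dd
  refine (abs_sub _ _).trans ?_
  rw [abs_mul, abs_of_nonneg (show 0 ≤ 1 / (Nat.totient q : ℝ) by positivity)]
  apply add_le_add (P_le β g q r (by omega))
  exact mul_le_mul_of_nonneg_left (P_le β g 1 0 (by omega)) (by positivity)

lemma sum_inv_phi (Q : ℕ) (hQ : 1 ≤ Q) :
    ∑ q ∈ Icc 1 Q, 1 / (Nat.totient q : ℝ) ≤ (1 + Real.log Q) ^ 4 := by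
  have hℓ1 : 1 ≤ 1 + Real.log Q := by
    have := Real.log_natCast_nonneg Q
    linarith
  obtain hk := Pool.Agent.H398R2.BV.sum_card_pow_div
  have e2 : ∀ q ∈ Icc 1 Q, 1 / (Nat.totient q : ℝ) ≤ (q.divisors.card : ℝ) ^ 1 / q := by
    intro q hq
    rw [mem_Icc] at hq
    refine (Pool.Agent.H398R2.BV.one_div_totient_le q hq.1).trans ?_
    have hq0 : (0 : ℝ) < q := by exact_mod_cast hq.1
    apply div_le_div_of_nonneg_right _ hq0.le
    rw [pow_one]
    exact_mod_cast Pool.Agent.H398R2.BV.two_pow_omega_le q (by omega)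
  refine (sum_le_sum e2).trans ?_
  refine (hk 1 Q).trans ?_
  rw [pow_one]
  exact pow_le_pow_right₀ hℓ1 (by norm_num)

lemma W_le (β g : ℕ → ℝ) (N Q : ℕ) (hQ : 1 ≤ Q) : W β g N Q ≤ 4 * (1 + Real.log Q) ^ 4 * V β g N Q := by
  have hℓ1 : 1 ≤ 1 + Real.log Q := by
    have := Real.log_natCast_nonneg Q
    linarith
  have hV0 := V_nonneg β g N Q
  have hm0 : 0 ≤ mP β g 1 0 N ^ 2 := by positivity
  have h1 : mP β g 1 0 N ^ 2 ≤ V β g N Q := by
    unfold V
    have h2 : ∑ r ∈ range 1, mP β g 1 r N ^ 2 ≤ ∑ q ∈ Icc 1 Q, ∑ r ∈ range q, mP β g q r N ^ 2 :=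
      single_le_sum (f := fun q => ∑ r ∈ range q, mP β g q r N ^ 2)
        (fun _ _ => sum_nonneg fun _ _ => by positivity) (mem_Icc.2 ⟨le_rfl, hQ⟩)
    simpa using h2
  have h2 : ∀ q ∈ Icc 1 Q, ∑ r ∈ (range q).filter (fun r => r.Coprime q), mD β g q r N ^ 2 ≤
      2 * ∑ r ∈ range q, mP β g q r N ^ 2 + 2 * (1 / (Nat.totient q : ℝ)) * mP β g 1 0 N ^ 2 := by
    intro q hq
    rw [mem_Icc] at hq
    have hφ : (0 : ℝ) < Nat.totient q := by exact_mod_cast Nat.totient_pos.2 hq.1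
    have h3 : ∀ r ∈ (range q).filter (fun r => r.Coprime q), mD β g q r N ^ 2 ≤
        2 * mP β g q r N ^ 2 + 2 * (1 / (Nat.totient q : ℝ)) ^ 2 * mP β g 1 0 N ^ 2 := by
      intro r _
      have h4 := mD_le β g q r N
      have h5 := mD_nonneg β g q r N
      calc mD β g q r N ^ 2 ≤ (mP β g q r N + 1 / (Nat.totient q : ℝ) * mP β g 1 0 N) ^ 2 :=
            pow_le_pow_left₀ h5 h4 2
        _ ≤ _ := by nlinarith [sq_nonneg (mP β g q r N - 1 / (Nat.totient q : ℝ) * mP β g 1 0 N)]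
    refine (sum_le_sum h3).trans ?_
    rw [sum_add_distrib, ← mul_sum, sum_const, nsmul_eq_mul]
    have h6 : #((range q).filter (fun r => r.Coprime q)) = Nat.totient q := by
      rw [Nat.totient_eq_card_coprime]
      congr 1
      apply filter_congr
      intro r _
      exact Nat.coprime_comm
    rw [h6]
    have h7 : ∑ r ∈ (range q).filter (fun r => r.Coprime q), mP β g q r N ^ 2 ≤
        ∑ r ∈ range q, mP β g q r N ^ 2 :=
      sum_le_sum_of_subset_of_nonneg (filter_subset _ _) (fun _ _ _ => by positivity)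
    have h8 : (Nat.totient q : ℝ) * (2 * (1 / (Nat.totient q : ℝ)) ^ 2 * mP β g 1 0 N ^ 2) =
        2 * (1 / (Nat.totient q : ℝ)) * mP β g 1 0 N ^ 2 := by field_simp
    rw [h8]
    linarith
  unfold W
  refine (sum_le_sum h2).trans ?_
  rw [sum_add_distrib, ← mul_sum]
  have h3 : ∑ q ∈ Icc 1 Q, 2 * (1 / (Nat.totient q : ℝ)) * mP β g 1 0 N ^ 2 ≤
      2 * (1 + Real.log Q) ^ 4 * V β g N Q := by
    rw [← sum_mul, ← mul_sum]
    have h4 := sum_inv_phi Q hQ
    have h5 : 0 ≤ ∑ q ∈ Icc 1 Q, 1 / (Nat.totient q : ℝ) := sum_nonneg fun _ _ => by positivity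
    calc 2 * (∑ q ∈ Icc 1 Q, 1 / (Nat.totient q : ℝ)) * mP β g 1 0 N ^ 2 ≤
        2 * (1 + Real.log Q) ^ 4 * mP β g 1 0 N ^ 2 := by
          apply mul_le_mul_of_nonneg_right _ hm0
          linarith
      _ ≤ _ := mul_le_mul_of_nonneg_left h1 (by positivity)
  have h4 : V β g N Q ≤ (1 + Real.log Q) ^ 4 * V β g N Q :=
    le_mul_of_one_le_left hV0 (one_le_pow₀ hℓ1)
  have h5 : 2 * ∑ q ∈ Icc 1 Q, ∑ r ∈ range q, mP β g q r N ^ 2 = 2 * V β g N Q := rfl
  rw [h5]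
  linarith

/-- the counting step -/
lemma count2 (X : ℕ) (L ℓ : ℝ) (A k : ℕ) (F : ℕ → ℝ) (hF : ∀ N, 0 ≤ F N) (hX : 1 ≤ X)
    (hL : 4 ≤ L) (hℓ : ℓ = 1 + L) (hsum : ∑ N ∈ Icc 1 X, F N ≤ X ^ 3 * (1 / 2 / ℓ ^ (A + 3 * k + 4))) :
    (((Icc 1 X).filter (fun N : ℕ => (N : ℝ) < X / ℓ ^ (k + 2) ∨ X ^ 2 / ℓ ^ (A + 2 * k + 4) ≤ F N)).card : ℝ) ≤
      X / L ^ k := by
  have hXp : (0 : ℝ) < X := by exact_mod_cast hX
  have hL0 : 0 < L := by linarith
  have hℓ5 : 5 ≤ ℓ := by linarith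
  have hℓ0 : 0 < ℓ := by linarith
  set S1 := (Icc 1 X).filter (fun N : ℕ => (N : ℝ) < X / ℓ ^ (k + 2)) with hS1
  set S2 := (Icc 1 X).filter (fun N : ℕ => X ^ 2 / ℓ ^ (A + 2 * k + 4) ≤ F N) with hS2
  have hsub : (Icc 1 X).filter (fun N : ℕ => (N : ℝ) < X / ℓ ^ (k + 2) ∨
      X ^ 2 / ℓ ^ (A + 2 * k + 4) ≤ F N) ⊆ S1 ∪ S2 := by
    intro N hN
    rw [mem_filter] at hN
    rw [mem_union, hS1, hS2, mem_filter, mem_filter]
    tauto
  have hcard := (card_le_card hsub).trans (card_union_le _ _)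
  have hLℓ : X / ℓ ^ k ≤ X / L ^ k := by
    apply div_le_div_of_nonneg_left hXp.le (by positivity)
    exact pow_le_pow_left₀ hL0.le (by linarith) _
  have hS1c : (S1.card : ℝ) ≤ (1 / 2) * (X / ℓ ^ k) := by
    have h7 : S1 ⊆ Icc 1 ⌊X / ℓ ^ (k + 2)⌋₊ := by
      intro N hN
      rw [hS1, mem_filter, mem_Icc] at hN
      rw [mem_Icc]
      exact ⟨hN.1.1, Nat.le_floor hN.2.le⟩
    have h8 := card_le_card h7
    rw [Nat.card_Icc, Nat.add_sub_cancel] at h8
    calc (S1.card : ℝ) ≤ (⌊X / ℓ ^ (k + 2)⌋₊ : ℝ) := by exact_mod_cast h8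
      _ ≤ X / ℓ ^ (k + 2) := Nat.floor_le (by positivity)
      _ = X / ℓ ^ k / ℓ ^ 2 := by rw [pow_add, div_div]
      _ ≤ X / ℓ ^ k / 2 := div_le_div_of_nonneg_left (by positivity) (by norm_num) (by nlinarith)
      _ = _ := by ring
  have hS2c : (S2.card : ℝ) ≤ (1 / 2) * (X / ℓ ^ k) := by
    have h8 : (S2.card : ℝ) * (X ^ 2 / ℓ ^ (A + 2 * k + 4)) ≤ ∑ N ∈ Icc 1 X, F N := by
      calc (S2.card : ℝ) * (X ^ 2 / ℓ ^ (A + 2 * k + 4)) = ∑ N ∈ S2, X ^ 2 / ℓ ^ (A + 2 * k + 4) := by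
            rw [sum_const, nsmul_eq_mul]
        _ ≤ ∑ N ∈ S2, F N := sum_le_sum fun N hN => by
            rw [hS2, mem_filter] at hN; exact hN.2
        _ ≤ _ := sum_le_sum_of_subset_of_nonneg (filter_subset _ _) (fun N _ _ => hF N)
    have h9 := h8.trans hsum
    have hpos : 0 < (X : ℝ) ^ 2 / ℓ ^ (A + 2 * k + 4) := by positivity
    have h10 : (S2.card : ℝ) ≤ X ^ 3 * (1 / 2 / ℓ ^ (A + 3 * k + 4)) / (X ^ 2 / ℓ ^ (A + 2 * k + 4)) := by
      rw [le_div_iff₀ hpos]; exact h9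
    refine h10.trans (le_of_eq ?_)
    have e1 : ℓ ^ (A + 3 * k + 4) = ℓ ^ (A + 2 * k + 4) * ℓ ^ k := by rw [← pow_add]; congr 1; ring
    rw [e1]
    field_simp
  have h14 : ((#((Icc 1 X).filter (fun N : ℕ => (N : ℝ) < X / ℓ ^ (k + 2) ∨
      X ^ 2 / ℓ ^ (A + 2 * k + 4) ≤ F N)) : ℕ) : ℝ) ≤ S1.card + S2.card := by exact_mod_cast hcard
  linarith

open Classical in
/-- **Almost all `N`.** -/
theorem few_bad (A k : ℕ) : ∃ X0 : ℕ, ∀ X : ℕ, X0 ≤ X → ∀ β g : ℕ → ℝ, (∀ n, |β n| ≤ 1) →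
    (g = g1 ∨ g = g2) →
    (((Icc 1 X).filter (fun N : ℕ =>
      ¬ (V β g N ⌊(N : ℝ) / Real.log N ^ (A + 3 * k + 21)⌋₊ ≤ N ^ 2 / Real.log N ^ A ∧
        W β g N ⌊(N : ℝ) / Real.log N ^ (A + 3 * k + 21)⌋₊ ≤ N ^ 2 / Real.log N ^ A))).card : ℝ) ≤
      X / Real.log X ^ k := by
  obtain ⟨X1, h1⟩ := mean_V2 (A + 3 * k + 20)
  obtain ⟨X2, h2⟩ := low_N (k + 2)
  obtain ⟨X3, h3⟩ := low_N (A + 3 * k + 20)
  obtain ⟨X6, hlog⟩ := eventually_atTop.1 (tlog.eventually_ge_atTop (max 4 (2 ^ (2 * (A + 3 * k + 21)))))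
  refine ⟨X1 + X2 + X3 + X6 + 4, fun X hX β g hβ hg => ?_⟩
  have a1 := h1 X (by omega) β g hβ hg
  have a2 := h2 X (by omega)
  have a3 := h3 X (by omega)
  have a6 := hlog X (by omega)
  have a6a : 4 ≤ Real.log X := (le_max_left _ _).trans a6
  have a6b : (2 : ℝ) ^ (2 * (A + 3 * k + 21)) ≤ Real.log X := (le_max_right _ _).trans a6
  have hXp : (0 : ℝ) < X := by exact_mod_cast (by omega : 0 < X)
  set L := Real.log X with hL
  set ℓ := 1 + L with hℓ
  have hℓ5 : 5 ≤ ℓ := by linarith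
  have hℓ0 : 0 < ℓ := by linarith
  have hE1 : 1 ≤ ℓ ^ (A + 3 * k + 20) := one_le_pow₀ (by linarith)
  set Q := ⌊(X : ℝ) / ℓ ^ (A + 3 * k + 20)⌋₊ with hQ
  have hQX : Q ≤ X := by
    have h5 : (Q : ℝ) ≤ X / ℓ ^ (A + 3 * k + 20) := Nat.floor_le (by positivity)
    have : (Q : ℝ) ≤ X := h5.trans (div_le_self hXp.le hE1)
    exact_mod_cast this
  have hQ1 : 1 ≤ Q := by
    apply Nat.le_floor
    push_cast
    refine le_trans ?_ a3
    have := Real.add_one_le_exp (L / 2)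
    linarith
  have hlQ : 1 + Real.log Q ≤ ℓ := by
    have := Real.log_le_log (show (0 : ℝ) < Q by exact_mod_cast hQ1) (show (Q : ℝ) ≤ X by exact_mod_cast hQX)
    linarith
  have hlQ0 : 0 ≤ Real.log Q := Real.log_natCast_nonneg Q
  set F : ℕ → ℝ := fun N => 4 * ℓ ^ 4 * V β g N Q with hF
  have hFnn : ∀ N, 0 ≤ F N := fun N => mul_nonneg (by positivity) (V_nonneg β g N Q)
  have hsum : ∑ N ∈ Icc 1 X, F N ≤ X ^ 3 * (1 / 2 / ℓ ^ (A + 3 * k + 4)) := by
    rw [hF, ← mul_sum]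
    calc 4 * ℓ ^ 4 * ∑ N ∈ Icc 1 X, V β g N Q ≤ 4 * ℓ ^ 4 * (X ^ 3 * (320 / ℓ ^ (A + 3 * k + 20) * ℓ ^ 7)) :=
          mul_le_mul_of_nonneg_left a1 (by positivity)
      _ = X ^ 3 * (1280 / ℓ ^ (A + 3 * k + 4) * (1 / ℓ ^ 5)) := by
          have e1 : ℓ ^ (A + 3 * k + 20) = ℓ ^ (A + 3 * k + 4) * ℓ ^ 16 := by rw [← pow_add]
          rw [e1]
          field_simp
          ring
      _ ≤ X ^ 3 * (1280 / ℓ ^ (A + 3 * k + 4) * (1 / 2560)) := by
          apply mul_le_mul_of_nonneg_left _ (by positivity)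
          apply mul_le_mul_of_nonneg_left _ (by positivity)
          apply one_div_le_one_div_of_le (by norm_num)
          calc (2560 : ℝ) ≤ 5 ^ 5 := by norm_num
            _ ≤ ℓ ^ 5 := pow_le_pow_left₀ (by norm_num) hℓ5 5
      _ = _ := by ring
  refine le_trans ?_ (count2 X L ℓ A k F hFnn (by omega) a6a hℓ hsum)
  have hsub : (Icc 1 X).filter (fun N : ℕ =>
      ¬ (V β g N ⌊(N : ℝ) / Real.log N ^ (A + 3 * k + 21)⌋₊ ≤ N ^ 2 / Real.log N ^ A ∧
        W β g N ⌊(N : ℝ) / Real.log N ^ (A + 3 * k + 21)⌋₊ ≤ N ^ 2 / Real.log N ^ A)) ⊆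
      (Icc 1 X).filter (fun N : ℕ => (N : ℝ) < X / ℓ ^ (k + 2) ∨ X ^ 2 / ℓ ^ (A + 2 * k + 4) ≤ F N) := by
    intro N hN
    rw [mem_filter] at hN ⊢
    refine ⟨hN.1, ?_⟩
    rcases lt_or_ge (N : ℝ) (X / ℓ ^ (k + 2)) with h7 | h7
    · exact Or.inl h7
    · right
      by_contra hcon
      push Not at hcon
      apply hN.2
      have hNmem := mem_Icc.1 hN.1
      have hN0 : (0 : ℝ) < N := by exact_mod_cast hNmem.1
      have hNs : Real.exp (L / 2) ≤ N := a2.trans h7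
      have hlogN : L / 2 ≤ Real.log N := by
        rw [Real.le_log_iff_exp_le hN0]; exact hNs
      have hlogN0 : 0 < Real.log N := by linarith
      have hNX : (N : ℝ) ≤ X := by exact_mod_cast hNmem.2
      have hlogN2 : Real.log N ≤ ℓ := by
        have := Real.log_le_log hN0 hNX
        linarith
      -- the level
      have hlev : ⌊(N : ℝ) / Real.log N ^ (A + 3 * k + 21)⌋₊ ≤ Q := by
        apply Nat.floor_le_floor
        have e1 : ℓ ^ (A + 3 * k + 20) ≤ Real.log N ^ (A + 3 * k + 21) := by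
          have e2 : (L / 2) ^ (A + 3 * k + 21) ≤ Real.log N ^ (A + 3 * k + 21) :=
            pow_le_pow_left₀ (by linarith) hlogN _
          have e3 : ℓ ^ (A + 3 * k + 20) ≤ (2 * L) ^ (A + 3 * k + 20) :=
            pow_le_pow_left₀ hℓ0.le (by linarith) _
          have e4 : (2 * L) ^ (A + 3 * k + 20) ≤ (L / 2) ^ (A + 3 * k + 21) := by
            have e5 : (L / 2) ^ (A + 3 * k + 21) = L ^ (A + 3 * k + 20) * (L / 2 ^ (A + 3 * k + 21)) := by
              rw [div_pow, pow_succ]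
              ring
            rw [e5, mul_pow, mul_comm]
            apply mul_le_mul_of_nonneg_left _ (by positivity)
            rw [le_div_iff₀ (by positivity)]
            calc (2 : ℝ) ^ (A + 3 * k + 20) * 2 ^ (A + 3 * k + 21) ≤
                2 ^ (A + 3 * k + 21) * 2 ^ (A + 3 * k + 21) := by
                  apply mul_le_mul_of_nonneg_right _ (by positivity)
                  exact pow_le_pow_right₀ (by norm_num) (by omega)
              _ = 2 ^ (2 * (A + 3 * k + 21)) := by rw [← pow_add]; congr 1; ring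
              _ ≤ L := a6b
          exact (e3.trans e4).trans e2
        exact div_le_div₀ hXp.le hNX (by positivity) e1
      have hthr : X ^ 2 / ℓ ^ (A + 2 * k + 4) ≤ (N : ℝ) ^ 2 / Real.log N ^ A := by
        calc X ^ 2 / ℓ ^ (A + 2 * k + 4) = (X / ℓ ^ (k + 2)) ^ 2 / ℓ ^ A := by
              rw [div_pow, div_div, ← pow_mul, ← pow_add]
              congr 2
              ring
          _ ≤ (N : ℝ) ^ 2 / ℓ ^ A := by
              apply div_le_div_of_nonneg_right _ (by positivity)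
              exact pow_le_pow_left₀ (by positivity) h7 2
          _ ≤ (N : ℝ) ^ 2 / Real.log N ^ A := by
              apply div_le_div_of_nonneg_left (by positivity) (by positivity)
              exact pow_le_pow_left₀ hlogN0.le hlogN2 _
      have hVQ := V_nonneg β g N Q
      have hℓ4 : 1 ≤ ℓ ^ 4 := one_le_pow₀ (by linarith)
      have hVF : V β g N Q ≤ F N := by
        rw [hF]
        simp only
        nlinarith
      have hWF : ∀ Q' : ℕ, Q' ≤ Q → W β g N Q' ≤ F N := by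
        intro Q' hQ'
        rcases Nat.eq_zero_or_pos Q' with h0 | h0
        · subst h0
          have : W β g N 0 = 0 := by
            unfold W
            simp
          rw [this]
          exact hFnn N
        · refine (W_le β g N Q' h0).trans ?_
          have hV' := V_mono β g N hQ'
          have hlQ' : 1 + Real.log Q' ≤ ℓ := by
            have := Real.log_le_log (show (0 : ℝ) < Q' by exact_mod_cast h0)
              (show (Q' : ℝ) ≤ Q by exact_mod_cast hQ')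
            linarith
          have hlQ0' : 0 ≤ Real.log Q' := Real.log_natCast_nonneg Q'
          have hV0' := V_nonneg β g N Q'
          rw [hF]
          simp only
          have e1 : (1 + Real.log Q') ^ 4 ≤ ℓ ^ 4 := pow_le_pow_left₀ (by linarith) hlQ' 4
          calc 4 * (1 + Real.log Q') ^ 4 * V β g N Q' ≤ 4 * ℓ ^ 4 * V β g N Q' := by
                apply mul_le_mul_of_nonneg_right _ hV0'
                linarith
            _ ≤ 4 * ℓ ^ 4 * V β g N Q := mul_le_mul_of_nonneg_left hV' (by positivity)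
      exact ⟨((V_mono β g N hlev).trans hVF).trans (hcon.le.trans hthr),
        (hWF _ hlev).trans (hcon.le.trans hthr)⟩
  exact_mod_cast card_le_card hsub

end Pool.Agent.K3h95.MS
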