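import Mathlib

/-!
# Sets of `k` primes which contain the new primes of a member of a sparse family
-/

set_option autoImplicit false

namespace Pool.Agent.K3h95.MS

open Finset

/-- `(n / k) ^ k ≤ n.choose k` -/
theorem choose_lower : ∀ (k n : ℕ), k ≤ n → (n : ℝ) ^ k ≤ (k : ℝ) ^ k * (n.choose k : ℝ) := by
  intro k
  induction k with
  | zero => intro n _; simp
  | succ k ih =>
    intro n hkn
    obtain ⟨n, rfl⟩ : ∃ n', n = n' + 1 := ⟨n - 1, by omega⟩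
    have hkn' : k ≤ n := by omega
    have h1 := ih n hkn'
    have h2 : ((n + 1 : ℕ) : ℝ) * (n.choose k : ℝ) =
        ((n + 1).choose (k + 1) : ℝ) * ((k + 1 : ℕ) : ℝ) := by
      exact_mod_cast Nat.add_one_mul_choose_eq n k
    rcases Nat.eq_zero_or_pos k with hk | hk
    · subst hk; simp
    have hk0 : (0 : ℝ) < (k : ℝ) := by exact_mod_cast hk
    -- (n+1) / (k+1) ≤ n / k
    have h3 : ((n + 1 : ℕ) : ℝ) * k ≤ n * ((k + 1 : ℕ) : ℝ) := by
      push_cast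
      have : (k : ℝ) ≤ n := by exact_mod_cast hkn'
      nlinarith
    have h4 : (((n + 1 : ℕ) : ℝ) * k) ^ k ≤ (n * ((k + 1 : ℕ) : ℝ)) ^ k := by gcongr
    rw [mul_pow, mul_pow] at h4
    have hkk : (0 : ℝ) < (k : ℝ) ^ k := by positivity
    have h5 : ((n + 1 : ℕ) : ℝ) ^ k ≤ ((k + 1 : ℕ) : ℝ) ^ k * (n.choose k : ℝ) := by
      have h6 : ((n + 1 : ℕ) : ℝ) ^ k * (k : ℝ) ^ k ≤
          (((k + 1 : ℕ) : ℝ) ^ k * (n.choose k : ℝ)) * (k : ℝ) ^ k := by
        calc ((n + 1 : ℕ) : ℝ) ^ k * (k : ℝ) ^ k ≤ (n : ℝ) ^ k * ((k + 1 : ℕ) : ℝ) ^ k := h4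
          _ ≤ ((k : ℝ) ^ k * (n.choose k : ℝ)) * ((k + 1 : ℕ) : ℝ) ^ k := by gcongr
          _ = _ := by ring
      exact le_of_mul_le_mul_right h6 hkk
    calc ((n + 1 : ℕ) : ℝ) ^ (k + 1) = ((n + 1 : ℕ) : ℝ) ^ k * ((n + 1 : ℕ) : ℝ) := pow_succ _ _
      _ ≤ (((k + 1 : ℕ) : ℝ) ^ k * (n.choose k : ℝ)) * ((n + 1 : ℕ) : ℝ) := by gcongr
      _ = ((k + 1 : ℕ) : ℝ) ^ k * (((n + 1 : ℕ) : ℝ) * (n.choose k : ℝ)) := by ring
      _ = ((k + 1 : ℕ) : ℝ) ^ (k + 1) * ((n + 1).choose (k + 1) : ℝ) := by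
        rw [h2, pow_succ]; ring

/-- the `k`-element subsets which contain `D` -/
theorem card_supersets (S D : Finset ℕ) (k : ℕ) :
    ((S.powersetCard k).filter fun P => D ⊆ P).card ≤ S.card ^ (k - D.card) := by
  refine le_trans ?_ (Nat.choose_le_pow S.card (k - D.card))
  rw [← card_powersetCard]
  refine card_le_card_of_injOn (fun P => P \ D) ?_ ?_
  · intro P hP
    rw [mem_coe, mem_filter, mem_powersetCard] at hP
    rw [mem_coe, mem_powersetCard]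
    refine ⟨sdiff_subset.trans hP.1.1, ?_⟩
    rw [card_sdiff_of_subset hP.2, hP.1.2]
  · intro P hP P' hP' h
    rw [mem_coe, mem_filter] at hP hP'
    have h' : P \ D = P' \ D := h
    rw [← sdiff_union_of_subset hP.2, ← sdiff_union_of_subset hP'.2, h']

/-- the sets of `k` primes `≤ X` for which some member of the family divides `m ∏ P`, but not `m` -/
theorem exceptional {α : Type} [Nonempty α] (L : α → Prop) (Q : α → Finset ℕ)
    (hQ : ∀ j, ∀ q ∈ Q j, q.Prime)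
    (hc : ∀ ε : ℝ, 0 < ε → ∃ D : ℝ, 0 < D ∧ ∀ Y : ℝ, 1 ≤ Y → ∀ B : Finset α,
      (∀ j ∈ B, L j ∧ ∏ q ∈ Q j, (q : ℝ) ≤ Y) → (B.card : ℝ) ≤ D * Y ^ (2 / 3 + ε))
    (hcheb : ∃ c : ℝ, 0 < c ∧ ∀ X : ℝ, 2 ≤ X →
      c * (X / Real.log X) ≤ Nat.primeCounting ⌊X⌋₊)
    (m : ℕ) (hm : 0 < m) (δ : ℝ) (hδ : 0 < δ) :
    ∃ C : ℝ, 0 < C ∧ ∀ X : ℝ, 2 ≤ X → ∀ k : ℕ, ∀ F : Finset (Finset ℕ),
      (∀ P ∈ F, P.card = k ∧ (∀ p ∈ P, p.Prime ∧ (p : ℝ) ≤ X) ∧
        ∃ j, L j ∧ (∏ q ∈ Q j, q) ∣ m * ∏ p ∈ P, p ∧ ¬ (∏ q ∈ Q j, q) ∣ m) →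
      (F.card : ℝ) ≤ (C * k) ^ k * X ^ (-(1 / 3 : ℝ) + δ) *
        ((Nat.primeCounting ⌊X⌋₊).choose k : ℝ) := by
  classical
  set ε : ℝ := min (δ / 2) (1 / 12) with hε
  have hε0 : 0 < ε := by positivity
  have hεδ : 2 * ε ≤ δ := by
    have := min_le_left (δ / 2) (1 / 12 : ℝ)
    linarith
  have hε12 : ε ≤ 1 / 12 := min_le_right _ _
  obtain ⟨D, hD, hcount⟩ := hc ε hε0
  obtain ⟨c₀, hc₀, hch⟩ := hcheb
  -- `π(X) ≥ c X^(1 - ε)`
  set c : ℝ := c₀ * ε with hcdef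
  have hcpos : 0 < c := by positivity
  have hpi : ∀ X : ℝ, 2 ≤ X → X ≤ (Nat.primeCounting ⌊X⌋₊ : ℝ) / c * X ^ ε := by
    intro X hX
    have hX0 : 0 < X := by linarith
    have hlog : 0 < Real.log X := Real.log_pos (by linarith)
    have h1 := hch X hX
    have h2 : Real.log X ≤ X ^ ε / ε := Real.log_le_rpow_div hX0.le hε0
    have h3 : Real.log X * ε ≤ X ^ ε := by
      rwa [le_div_iff₀ hε0] at h2
    have h4 : c₀ * X ≤ (Nat.primeCounting ⌊X⌋₊ : ℝ) * Real.log X := by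
      have h5 : c₀ * (X / Real.log X) * Real.log X ≤
          (Nat.primeCounting ⌊X⌋₊ : ℝ) * Real.log X := by gcongr
      have h6 : c₀ * (X / Real.log X) * Real.log X = c₀ * X := by
        field_simp
      linarith
    rw [div_mul_eq_mul_div, le_div_iff₀ hcpos]
    calc X * c = (c₀ * X) * ε := by rw [hcdef]; ring
      _ ≤ ((Nat.primeCounting ⌊X⌋₊ : ℝ) * Real.log X) * ε := by gcongr
      _ = (Nat.primeCounting ⌊X⌋₊ : ℝ) * (Real.log X * ε) := by ring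
      _ ≤ (Nat.primeCounting ⌊X⌋₊ : ℝ) * X ^ ε := by gcongr
  set A : ℝ := max 1 (D * (m : ℝ) ^ (2 / 3 + ε : ℝ)) with hA
  have hA1 : 1 ≤ A := le_max_left _ _
  set b : ℝ := max 1 c⁻¹ with hb
  have hb1 : 1 ≤ b := le_max_left _ _
  have hbc : c⁻¹ ≤ b := le_max_right _ _
  refine ⟨2 * b * A, by positivity, fun X hX k F hF => ?_⟩
  have hX0 : 0 < X := by linarith
  have hX1 : 1 ≤ X := by linarith
  set n : ℕ := Nat.primeCounting ⌊X⌋₊ with hn
  set S : Finset ℕ := Nat.primesLE ⌊X⌋₊ with hS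
  have hScard : S.card = n := Nat.primesLE_card_eq_primeCounting _
  have hmemS : ∀ p : ℕ, p.Prime → (p : ℝ) ≤ X → p ∈ S := by
    intro p hp hpX
    rw [hS, Nat.mem_primesLE]
    exact ⟨Nat.le_floor hpX, hp⟩
  -- the witnesses
  choose! w hw using fun P (hP : P ∈ F) => (hF P hP).2.2
  set N : α → Finset ℕ := fun j => (Q j).filter fun q => ¬ q ∣ m with hN
  have hNP : ∀ P ∈ F, N (w P) ⊆ P := by
    intro P hP q hq
    rw [hN, mem_filter] at hq
    have hqp := hQ _ q hq.1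
    have h1 : q ∣ m * ∏ p ∈ P, p := (dvd_prod_of_mem _ hq.1).trans (hw P hP).2.1
    rcases hqp.dvd_mul.mp h1 with h | h
    · exact absurd h hq.2
    · obtain ⟨p, hp, hqp'⟩ := (Prime.dvd_finsetProd_iff hqp.prime _).mp h
      have := (Nat.prime_dvd_prime_iff_eq hqp ((hF P hP).2.1 p hp).1).mp hqp'
      rwa [this]
  have hNne : ∀ P ∈ F, 1 ≤ (N (w P)).card := by
    intro P hP
    rw [Nat.one_le_iff_ne_zero, Ne, card_eq_zero]
    intro h0
    apply (hw P hP).2.2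
    refine Finset.prod_primes_dvd _ (fun q hq => (hQ _ q hq).prime) fun q hq => ?_
    by_contra hc'
    have : q ∈ N (w P) := by rw [hN, mem_filter]; exact ⟨hq, hc'⟩
    rw [h0] at this
    exact absurd this (notMem_empty _)
  have hNk : ∀ P ∈ F, (N (w P)).card ≤ k := by
    intro P hP
    have := card_le_card (hNP P hP)
    rwa [(hF P hP).1] at this
  have hrad : ∀ P ∈ F, ∏ q ∈ Q (w P), (q : ℝ) ≤ m * X ^ (N (w P)).card := by
    intro P hP
    rw [← prod_filter_mul_prod_filter_not (Q (w P)) (fun q => q ∣ m)]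
    have h1 : (∏ q ∈ (Q (w P)).filter (fun q => q ∣ m), (q : ℝ)) ≤ m := by
      have h2 : (∏ q ∈ (Q (w P)).filter (fun q => q ∣ m), q) ∣ m :=
        Finset.prod_primes_dvd _ (fun q hq => (hQ _ q (mem_filter.mp hq).1).prime)
          fun q hq => (mem_filter.mp hq).2
      rw [← Nat.cast_prod]
      exact Nat.cast_le.mpr (Nat.le_of_dvd hm h2)
    have h3 : (∏ q ∈ (Q (w P)).filter (fun q => ¬ q ∣ m), (q : ℝ)) ≤ X ^ (N (w P)).card := by
      calc (∏ q ∈ (Q (w P)).filter (fun q => ¬ q ∣ m), (q : ℝ)) ≤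
            ∏ _q ∈ (Q (w P)).filter (fun q => ¬ q ∣ m), X :=
            Finset.prod_le_prod (fun _ _ => by positivity) fun q hq =>
              ((hF P hP).2.1 q (hNP P hP hq)).2
        _ = X ^ (N (w P)).card := by rw [prod_const]
    have h4 : (0 : ℝ) ≤ ∏ q ∈ (Q (w P)).filter (fun q => ¬ q ∣ m), (q : ℝ) := by positivity
    calc _ ≤ (m : ℝ) * ∏ q ∈ (Q (w P)).filter (fun q => ¬ q ∣ m), (q : ℝ) := by gcongr
      _ ≤ m * X ^ (N (w P)).card := by gcongr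
  -- the sets with `i` new primes
  have hlev : ∀ i ∈ Icc 1 k, ((F.filter fun P => (N (w P)).card = i).card : ℝ) ≤
      A * b ^ k * X ^ (-(1 / 3 : ℝ) + δ) * (n : ℝ) ^ k := by
    intro i hi
    rw [mem_Icc] at hi
    set Fi := F.filter fun P => (N (w P)).card = i with hFi
    set B := Fi.image w with hB
    have hBcard : (B.card : ℝ) ≤ D * ((m : ℝ) * X ^ i) ^ (2 / 3 + ε : ℝ) := by
      refine hcount _ ?_ B ?_
      · have h1 : (1 : ℝ) ≤ m := by exact_mod_cast hm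
        have h2 : (1 : ℝ) ≤ X ^ i := one_le_pow₀ hX1
        nlinarith
      · intro j hj
        rw [hB, mem_image] at hj
        obtain ⟨P, hP, rfl⟩ := hj
        rw [hFi, mem_filter] at hP
        refine ⟨(hw P hP.1).1, ?_⟩
        have := hrad P hP.1
        rwa [hP.2] at this
    have hsub : Fi ⊆ B.biUnion fun j => if (N j).card = i then
        (S.powersetCard k).filter (fun P => N j ⊆ P) else ∅ := by
      intro P hP
      rw [mem_biUnion]
      refine ⟨w P, mem_image_of_mem _ hP, ?_⟩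
      rw [hFi, mem_filter] at hP
      rw [if_pos hP.2, mem_filter, mem_powersetCard]
      refine ⟨⟨fun p hp => ?_, (hF P hP.1).1⟩, hNP P hP.1⟩
      have := (hF P hP.1).2.1 p hp
      exact hmemS p this.1 this.2
    have hcard1 : Fi.card ≤ B.card * n ^ (k - i) := by
      refine (card_le_card hsub).trans (card_biUnion_le.trans ?_)
      rw [← smul_eq_mul]
      refine sum_le_card_nsmul _ _ _ fun j _ => ?_
      split_ifs with h
      · have := card_supersets S (N j) k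
        rwa [h, hScard] at this
      · simp
    have hn0 : (0 : ℝ) ≤ n := by positivity
    have hXi : (X ^ i : ℝ) ^ (2 / 3 + ε : ℝ) ≤ b ^ k * X ^ (-(1 / 3 : ℝ) + δ) * (n : ℝ) ^ i := by
      have e1 : (X ^ i : ℝ) ^ (2 / 3 + ε : ℝ) = X ^ i * X ^ ((i : ℝ) * (-(1 / 3) + ε)) := by
        rw [← Real.rpow_natCast, ← Real.rpow_mul hX0.le, ← Real.rpow_add hX0]
        congr 1; ring
      have e2 : X ^ i ≤ ((n : ℝ) / c * X ^ ε) ^ i := by
        have := hpi X hX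
        gcongr
      have e3 : ((n : ℝ) / c * X ^ ε) ^ i = (n : ℝ) ^ i * c⁻¹ ^ i * X ^ ((i : ℝ) * ε) := by
        rw [mul_pow, div_eq_mul_inv, mul_pow, ← Real.rpow_natCast (X ^ ε), ← Real.rpow_mul hX0.le,
          mul_comm ε]
      have e4 : c⁻¹ ^ i ≤ b ^ k := by
        calc c⁻¹ ^ i ≤ b ^ i := by gcongr
          _ ≤ b ^ k := pow_le_pow_right₀ hb1 hi.2
      have e5 : X ^ ((i : ℝ) * ε) * X ^ ((i : ℝ) * (-(1 / 3) + ε)) ≤
          X ^ (-(1 / 3 : ℝ) + δ) := by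
        rw [← Real.rpow_add hX0]
        apply Real.rpow_le_rpow_of_exponent_le hX1
        have hi1 : (1 : ℝ) ≤ i := by exact_mod_cast hi.1
        nlinarith
      calc (X ^ i : ℝ) ^ (2 / 3 + ε : ℝ) = X ^ i * X ^ ((i : ℝ) * (-(1 / 3) + ε)) := e1
        _ ≤ ((n : ℝ) ^ i * c⁻¹ ^ i * X ^ ((i : ℝ) * ε)) * X ^ ((i : ℝ) * (-(1 / 3) + ε)) := by
            rw [← e3]; gcongr
        _ = (n : ℝ) ^ i * c⁻¹ ^ i *
            (X ^ ((i : ℝ) * ε) * X ^ ((i : ℝ) * (-(1 / 3) + ε))) := by ring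
        _ ≤ (n : ℝ) ^ i * b ^ k * X ^ (-(1 / 3 : ℝ) + δ) := by gcongr
        _ = _ := by ring
    have hmX : ((m : ℝ) * X ^ i) ^ (2 / 3 + ε : ℝ) =
        (m : ℝ) ^ (2 / 3 + ε : ℝ) * (X ^ i : ℝ) ^ (2 / 3 + ε : ℝ) := by
      rw [Real.mul_rpow (by positivity) (by positivity)]
    calc (Fi.card : ℝ) ≤ (B.card : ℝ) * (n : ℝ) ^ (k - i) := by exact_mod_cast hcard1
      _ ≤ (D * ((m : ℝ) * X ^ i) ^ (2 / 3 + ε : ℝ)) * (n : ℝ) ^ (k - i) := by gcongr
      _ = (D * (m : ℝ) ^ (2 / 3 + ε : ℝ)) * (X ^ i : ℝ) ^ (2 / 3 + ε : ℝ) *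
          (n : ℝ) ^ (k - i) := by rw [hmX]; ring
      _ ≤ A * (b ^ k * X ^ (-(1 / 3 : ℝ) + δ) * (n : ℝ) ^ i) * (n : ℝ) ^ (k - i) := by
          gcongr
          exact le_max_right _ _
      _ = A * b ^ k * X ^ (-(1 / 3 : ℝ) + δ) * ((n : ℝ) ^ i * (n : ℝ) ^ (k - i)) := by ring
      _ = _ := by rw [← pow_add, Nat.add_sub_cancel' hi.2]
  -- the sum
  have hFsum : F.card = ∑ i ∈ Icc 1 k, (F.filter fun P => (N (w P)).card = i).card := by
    refine card_eq_sum_card_fiberwise fun P hP => ?_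
    rw [mem_coe, mem_Icc]
    exact ⟨hNne P hP, hNk P hP⟩
  have htot : (F.card : ℝ) ≤ k * (A * b ^ k * X ^ (-(1 / 3 : ℝ) + δ) * (n : ℝ) ^ k) := by
    rw [hFsum]
    push_cast
    refine (sum_le_card_nsmul _ _ _ hlev).trans ?_
    rw [Nat.card_Icc, nsmul_eq_mul]
    simp
  rcases Nat.eq_zero_or_pos k with hk | hk
  · subst hk
    simp only [Nat.cast_zero, zero_mul] at htot
    have : (0 : ℝ) ≤ (2 * b * A * (0 : ℕ)) ^ 0 * X ^ (-(1 / 3 : ℝ) + δ) *
        (n.choose 0 : ℝ) := by positivity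
    linarith
  rcases Nat.lt_or_ge n k with hnk | hkn
  · -- no sets at all
    have : F = ∅ := by
      rw [eq_empty_iff_forall_notMem]
      intro P hP
      have h1 : P ⊆ S := fun p hp => hmemS p ((hF P hP).2.1 p hp).1 ((hF P hP).2.1 p hp).2
      have h2 := card_le_card h1
      rw [(hF P hP).1, hScard] at h2
      omega
    rw [this, card_empty, Nat.cast_zero]
    positivity
  · have hch2 := choose_lower k n hkn
    have hk2 : (k : ℝ) ≤ 2 ^ k := by exact_mod_cast (Nat.lt_two_pow_self).le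
    have hAk : A ≤ A ^ k := le_self_pow₀ hA1 hk.ne'
    calc (F.card : ℝ) ≤ k * (A * b ^ k * X ^ (-(1 / 3 : ℝ) + δ) * (n : ℝ) ^ k) := htot
      _ ≤ 2 ^ k * (A ^ k * b ^ k * X ^ (-(1 / 3 : ℝ) + δ) *
          ((k : ℝ) ^ k * (n.choose k : ℝ))) := by gcongr
      _ = (2 * b * A * k) ^ k * X ^ (-(1 / 3 : ℝ) + δ) * (n.choose k : ℝ) := by
          rw [mul_pow, mul_pow, mul_pow]; ring

end Pool.Agent.K3h95.MS
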