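import Mathlib

/-!
# The rational modular invariants of level two without odd primes in the denominator
-/

set_option autoImplicit false

namespace Pool.Agent.K3h95.MS

/-- an odd integer without odd prime divisors is `±1` -/
theorem natAbs_eq_one {n : ℤ} (hn : ¬ (2 : ℤ) ∣ n)
    (h : ∀ p : ℕ, p.Prime → p ≠ 2 → ¬ (p : ℤ) ∣ n) : n = 1 ∨ n = -1 := by
  have h1 : n.natAbs = 1 := by
    by_contra hc
    obtain ⟨p, hp, hd⟩ := Nat.exists_prime_and_dvd hc
    have hd' : (p : ℤ) ∣ n := Int.natCast_dvd.mpr hd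
    by_cases h2 : p = 2
    · subst h2; exact hn hd'
    · exact h p hp h2 hd'
  exact Int.natAbs_eq_iff.mp h1 |>.imp id id

/-- if the denominator of `j = 256 (l² - l + 1)³ / (l² (1 - l)²)` has no odd prime divisors, then
`j = 1728` -/
theorem eq_1728 {j l : ℚ} (hl : l ≠ 0) (hl1 : l ≠ 1)
    (hj : j * (l ^ 2 * (1 - l) ^ 2) = 256 * (l ^ 2 - l + 1) ^ 3)
    (hden : ∀ p : ℕ, p.Prime → p ≠ 2 → ¬ p ∣ j.den) : j = 1728 := by
  set r : ℤ := l.num with hr
  set s : ℤ := (l.den : ℤ) with hs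
  have hs0 : 0 < s := by rw [hs]; exact_mod_cast l.den_pos
  have hsQ : (s : ℚ) ≠ 0 := by exact_mod_cast hs0.ne'
  have hlrs : l = (r : ℚ) / (s : ℚ) := by
    rw [hr, hs]; exact_mod_cast (Rat.num_div_den l).symm
  have hcop : IsCoprime r s := by
    rw [hr, hs, Int.isCoprime_iff_gcd_eq_one]
    exact l.reduced
  -- the equation in integers
  have hd0 : (j.den : ℤ) ≠ 0 := by exact_mod_cast j.den_ne_zero
  have hdQ : (j.den : ℚ) ≠ 0 := by exact_mod_cast j.den_ne_zero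
  have key : j.num * (r ^ 2 * (s - r) ^ 2 * s ^ 2) =
      256 * (r ^ 2 - r * s + s ^ 2) ^ 3 * j.den := by
    have h1 : ((j.num : ℚ) / (j.den : ℚ)) * ((r / s : ℚ) ^ 2 * (1 - r / s) ^ 2) =
        256 * ((r / s : ℚ) ^ 2 - r / s + 1) ^ 3 := by
      rw [Rat.num_div_den, ← hlrs]; exact hj
    have h2 : (j.num : ℚ) * ((r : ℚ) ^ 2 * ((s : ℚ) - r) ^ 2 * (s : ℚ) ^ 2) =
        256 * ((r : ℚ) ^ 2 - r * s + (s : ℚ) ^ 2) ^ 3 * (j.den : ℚ) := by
      field_simp at h1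
      linear_combination h1
    exact_mod_cast h2
  -- no odd prime divides r s (s - r)
  have hno : ∀ p : ℕ, p.Prime → p ≠ 2 → ¬ (p : ℤ) ∣ r * s * (s - r) := by
    intro p hp hp2 hd
    have hpp : Prime (p : ℤ) := Nat.prime_iff_prime_int.mp hp
    apply hden p hp hp2
    have hQ : ¬ (p : ℤ) ∣ (r ^ 2 - r * s + s ^ 2) := by
      intro hQ
      have hboth : (p : ℤ) ∣ r ∧ (p : ℤ) ∣ s := by
        rcases hpp.dvd_or_dvd hd with h | h
        · rcases hpp.dvd_or_dvd h with h | h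
          · refine ⟨h, hpp.dvd_of_dvd_pow (n := 2) ?_⟩
            have h3 : s ^ 2 = (r ^ 2 - r * s + s ^ 2) - r * (r - s) := by ring
            rw [h3]; exact dvd_sub hQ (Dvd.dvd.mul_right h _)
          · refine ⟨hpp.dvd_of_dvd_pow (n := 2) ?_, h⟩
            have h3 : r ^ 2 = (r ^ 2 - r * s + s ^ 2) - s * (s - r) := by ring
            rw [h3]; exact dvd_sub hQ (Dvd.dvd.mul_right h _)
        · have hr2 : (p : ℤ) ∣ r := by
            refine hpp.dvd_of_dvd_pow (n := 2) ?_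
            have h3 : r ^ 2 = (r ^ 2 - r * s + s ^ 2) - (s - r) * s := by ring
            rw [h3]; exact dvd_sub hQ (Dvd.dvd.mul_right h _)
          refine ⟨hr2, ?_⟩
          have h3 : s = (s - r) + r := by ring
          rw [h3]; exact dvd_add h hr2
      exact hpp.not_isUnit (hcop.isUnit_of_dvd' hboth.1 hboth.2)
    have h256 : ¬ (p : ℤ) ∣ 256 := by
      intro h
      have h' : (p : ℤ) ∣ (2 : ℤ) ^ 8 := by norm_num; exact h
      have h2 := hpp.dvd_of_dvd_pow h'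
      have h3 : p ∣ 2 := by exact_mod_cast h2
      exact hp2 ((Nat.prime_dvd_prime_iff_eq hp Nat.prime_two).mp h3)
    have h4 : (p : ℤ) ∣ 256 * (r ^ 2 - r * s + s ^ 2) ^ 3 * j.den := by
      rw [← key]
      have h5 : r ^ 2 * (s - r) ^ 2 * s ^ 2 = (r * s * (s - r)) * (r * s * (s - r)) := by ring
      rw [h5]
      exact Dvd.dvd.mul_left (Dvd.dvd.mul_right hd _) _
    rcases hpp.dvd_or_dvd h4 with h | h
    · rcases hpp.dvd_or_dvd h with h | h
      · exact absurd h h256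
      · exact absurd (hpp.dvd_of_dvd_pow h) hQ
    · exact_mod_cast h
  have hnr : ∀ p : ℕ, p.Prime → p ≠ 2 → ¬ (p : ℤ) ∣ r := fun p hp hp2 h =>
    hno p hp hp2 (Dvd.dvd.mul_right (Dvd.dvd.mul_right h _) _)
  have hns : ∀ p : ℕ, p.Prime → p ≠ 2 → ¬ (p : ℤ) ∣ s := fun p hp hp2 h =>
    hno p hp hp2 (Dvd.dvd.mul_right (Dvd.dvd.mul_left h _) _)
  have hnt : ∀ p : ℕ, p.Prime → p ≠ 2 → ¬ (p : ℤ) ∣ (s - r) := fun p hp hp2 h =>
    hno p hp hp2 (Dvd.dvd.mul_left h _)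
  have hrs : ¬ ((2 : ℤ) ∣ r ∧ (2 : ℤ) ∣ s) := by
    rintro ⟨h1, h2⟩
    exact Int.prime_two.not_isUnit (hcop.isUnit_of_dvd' h1 h2)
  have hr0 : r ≠ 0 := by
    intro h
    apply hl
    rw [hlrs, h]; simp
  have ht0 : s - r ≠ 0 := by
    intro h
    apply hl1
    have : (r : ℚ) = s := by exact_mod_cast (sub_eq_zero.mp h).symm
    rw [hlrs, this, div_self hsQ]
  have hcase : (r = 2 ∧ s = 1) ∨ (r = 1 ∧ s = 2) ∨ (r = -1 ∧ s = 1) := by
    by_cases h2s : (2 : ℤ) ∣ s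
    · -- r and s - r are odd
      have h2r : ¬ (2 : ℤ) ∣ r := fun h => hrs ⟨h, h2s⟩
      have h2t : ¬ (2 : ℤ) ∣ (s - r) := by omega
      rcases natAbs_eq_one h2r hnr with h | h <;> rcases natAbs_eq_one h2t hnt with h' | h' <;> omega
    · have hs1 : s = 1 := by
        rcases natAbs_eq_one h2s hns with h | h <;> omega
      by_cases h2r : (2 : ℤ) ∣ r
      · have h2t : ¬ (2 : ℤ) ∣ (s - r) := by omega
        rcases natAbs_eq_one h2t hnt with h' | h' <;> omega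
      · rcases natAbs_eq_one h2r hnr with h' | h' <;> omega
  have hl' : l = 2 ∨ l = 1 / 2 ∨ l = -1 := by
    rcases hcase with ⟨h1, h2⟩ | ⟨h1, h2⟩ | ⟨h1, h2⟩
    · left; rw [hlrs, h1, h2]; norm_num
    · right; left; rw [hlrs, h1, h2]; norm_num
    · right; right; rw [hlrs, h1, h2]; norm_num
  rcases hl' with h | h | h <;> rw [h] at hj <;> norm_num at hj <;> linarith

end Pool.Agent.K3h95.MS
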